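import Pool.Agent.R3.Final

namespace Pool.Agent.Results.MP_0ea0cb_lc.ExactThree

open Pool.Agent.H78.Sched

/-- The optimal competitive ratio of deterministic online scheduling with rejection on three
machines is the tribonacci constant `1.8392867...`, the only real root of
`x ^ 3 = x ^ 2 + x + 1`. -/
theorem result : R 3 ^ 3 = R 3 ^ 2 + R 3 + 1 ∧ ∀ x : ℝ, x ^ 3 = x ^ 2 + x + 1 → x = R 3 :=
  Pool.Agent.R3.final

end Pool.Agent.Results.MP_0ea0cb_lc.ExactThree
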