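import Pool.Agent.H78.Sched.Main
import Pool.Agent.H69.Sched.LogMain
import Pool.Agent.OSR2.Final2

namespace Pool.Agent.Results.MP_0ea0cb_lc.GeneralGap

open Pool.Agent.H78.Sched

/-- For all running times and penalties: for a constant `κ > 0` and all `m ≥ 2`, the gap
`1 + φ - R m` is at least `κ (log m / m) ^ (2 / (2 + φ))` and at most
`45 (log m / m) ^ (1 / (1 + φ))`. Moreover `R m < 1 + φ - 1 / m` for every `m ≥ 13`. -/
theorem result :
    (∃ κ : ℝ, 0 < κ ∧ ∀ m : ℕ, 2 ≤ m →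
      κ * (Real.log m / m) ^ (2 / (2 + Real.goldenRatio)) ≤ 1 + Real.goldenRatio - R m ∧
      1 + Real.goldenRatio - R m ≤ 45 * (Real.log m / m) ^ (1 / (1 + Real.goldenRatio))) ∧
    (∀ m : ℕ, 13 ≤ m → R m < 1 + Real.goldenRatio - 1 / m) := by
  refine ⟨?_, Pool.Agent.H69.Sched.strict_bound⟩
  obtain ⟨κ, hκ, h⟩ := Pool.Agent.OSR.gap_log
  refine ⟨κ, hκ, fun m hm => ⟨?_, ?_⟩⟩
  · have := h m hm
    linarith
  · have := Pool.Agent.H78.Sched.main m hm
    linarith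

end Pool.Agent.Results.MP_0ea0cb_lc.GeneralGap
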