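import Pool.Agent.H67L.Final

namespace Pool.Agent.Results.MP_0ea0cb_lc.ListSchedulingExact

open Pool.Agent.H78.Sched Pool.Agent.H67L Filter Topology

/-- The optimal competitive ratio `RL m` of the algorithms which use List Scheduling (with any
rule of rejection), exactly for every `m ≥ 2`, its values for small `m`, and the asymptotic
behaviour of the gap `1 + φ - RL m`. -/
theorem result :
    (∀ m : ℕ, 2 ≤ m →
      IsLeast {c : ℝ | 1 < c ∧ ∀ K : ℕ, ∑ k ∈ Finset.range K, (1 / c) ^ k ≤ c - 1 + K / m}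
        (RL m) ∧
      (∃ A : List (ℝ × ℝ) → Option (Fin m), ListScheduling m A ∧ Competitive m A (RL m)) ∧
      R m ≤ RL m ∧ RL m ≤ 1 + Real.goldenRatio - 2 / m) ∧
    RL 2 = Real.goldenRatio ∧ RL 3 = (2 + √13) / 3 ∧ RL 4 = 2 ∧ 2.102 < RL 5 ∧ RL 5 ≤ 2.1021 ∧
    Tendsto (fun m : ℕ => (1 + Real.goldenRatio - RL m) * m / Real.log m) atTop
      (𝓝 (Real.goldenRatio / (2 * √5 * Real.log Real.goldenRatio))) :=
  ⟨exact_all, RL_two, RL_three, RL_four, RL_five.1, RL_five.2, tendsto_gap⟩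

end Pool.Agent.Results.MP_0ea0cb_lc.ListSchedulingExact
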