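import Pool.Agent.H78.Sched.UnitMain

namespace Pool.Agent.Results.MP_0ea0cb_lc.UnitTimeOrder

open Pool.Agent.H78.Sched

/-- For unit running times, the optimal competitive ratio `unitR m` of deterministic online
scheduling with rejection on `m` machines satisfies `1 + φ - unitR m = Θ ((log m / m) ^ (1 / (1 + φ)))`
as `m → ∞`. -/
theorem result :
    Asymptotics.IsTheta Filter.atTop (fun m : ℕ => 1 + Real.goldenRatio - unitR m)
      (fun m : ℕ => (Real.log m / m) ^ (1 / (1 + Real.goldenRatio))) :=
  unit_theta

end Pool.Agent.Results.MP_0ea0cb_lc.UnitTimeOrder
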